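import Mathlib

/-!
# Simple noncommutative Jordan algebras of infinite dimension with `([x,y],y,y) = 0`

For every field `F` of characteristic not two we give a simple algebra over `F`, of infinite
dimension over `F`, which is noncommutative Jordan, satisfies `([x,y],y,y) = 0` and is neither
alternative nor a Jordan algebra. It is the colour algebra over the field `F(t)`, with a norm
scaled so that the identity holds, regarded as an algebra over `F`.
-/

set_option autoImplicit false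

namespace Pool.Agent.Results.MP_52e257_al.LargeCentroid

/-- Seven coordinates: a scalar, a vector `u` and a vector `v`. -/
abbrev K7 (K : Type) := K × K × K × K × K × K × K

/-- `(a, u, v) (b, w, z) = (a b + u·z + v·w, a w + b u + v × z, a z + b v - 2 u × w)`. -/
def mulc {K : Type} [CommRing K] : K7 K → K7 K → K7 K
  | (a, u1, u2, u3, v1, v2, v3), (b, w1, w2, w3, z1, z2, z3) =>
    (a * b + (u1 * z1 + u2 * z2 + u3 * z3) + (v1 * w1 + v2 * w2 + v3 * w3),
     a * w1 + b * u1 + (v2 * z3 - v3 * z2),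
     a * w2 + b * u2 + (v3 * z1 - v1 * z3),
     a * w3 + b * u3 + (v1 * z2 - v2 * z1),
     a * z1 + b * v1 - 2 * (u2 * w3 - u3 * w2),
     a * z2 + b * v2 - 2 * (u3 * w1 - u1 * w3),
     a * z3 + b * v3 - 2 * (u1 * w2 - u2 * w1))

/-- The multiplication as an `F`-bilinear map. -/
def mulF (F K : Type) [Field F] [Field K] [Algebra F K] : K7 K →ₗ[F] K7 K →ₗ[F] K7 K :=
  LinearMap.mk₂ F mulc
    (by
      rintro ⟨a, u1, u2, u3, v1, v2, v3⟩ ⟨a', u1', u2', u3', v1', v2', v3'⟩
        ⟨b, w1, w2, w3, z1, z2, z3⟩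
      simp only [mulc, Prod.mk_add_mk, Prod.mk.injEq]
      refine ⟨?_, ?_, ?_, ?_, ?_, ?_, ?_⟩ <;> ring)
    (by
      rintro c ⟨a, u1, u2, u3, v1, v2, v3⟩ ⟨b, w1, w2, w3, z1, z2, z3⟩
      simp only [mulc, Prod.smul_mk, Prod.mk.injEq]
      refine ⟨?_, ?_, ?_, ?_, ?_, ?_, ?_⟩ <;> simp only [Algebra.smul_def] <;> ring)
    (by
      rintro ⟨b, w1, w2, w3, z1, z2, z3⟩ ⟨a, u1, u2, u3, v1, v2, v3⟩
        ⟨a', u1', u2', u3', v1', v2', v3'⟩
      simp only [mulc, Prod.mk_add_mk, Prod.mk.injEq]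
      refine ⟨?_, ?_, ?_, ?_, ?_, ?_, ?_⟩ <;> ring)
    (by
      rintro c ⟨a, u1, u2, u3, v1, v2, v3⟩ ⟨b, w1, w2, w3, z1, z2, z3⟩
      simp only [mulc, Prod.smul_mk, Prod.mk.injEq]
      refine ⟨?_, ?_, ?_, ?_, ?_, ?_, ?_⟩ <;> simp only [Algebra.smul_def] <;> ring)

theorem mulF_apply (F K : Type) [Field F] [Field K] [Algebra F K] (x y : K7 K) :
    mulF F K x y = mulc x y := rfl

/-- The associator `(x, y, z) = (x y) z - x (y z)` of the multiplication `m`. -/
def assoc {F A : Type} [Field F] [AddCommGroup A] [Module F A] (m : A →ₗ[F] A →ₗ[F] A)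
    (x y z : A) : A := m (m x y) z - m x (m y z)

section

variable {F K : Type} [Field F] [Field K] [Algebra F K]

theorem flexible (x y : K7 K) : assoc (mulF F K) x y x = 0 := by
  obtain ⟨a, u1, u2, u3, v1, v2, v3⟩ := x
  obtain ⟨b, w1, w2, w3, z1, z2, z3⟩ := y
  simp only [assoc, mulF_apply, mulc, Prod.mk_sub_mk, Prod.mk_eq_zero]
  refine ⟨?_, ?_, ?_, ?_, ?_, ?_, ?_⟩ <;> ring

theorem jordan (x y : K7 K) : assoc (mulF F K) (mulF F K x x) y x = 0 := by
  obtain ⟨a, u1, u2, u3, v1, v2, v3⟩ := x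
  obtain ⟨b, w1, w2, w3, z1, z2, z3⟩ := y
  simp only [assoc, mulF_apply, mulc, Prod.mk_sub_mk, Prod.mk_eq_zero]
  refine ⟨?_, ?_, ?_, ?_, ?_, ?_, ?_⟩ <;> ring

theorem identity (x y : K7 K) :
    assoc (mulF F K) (mulF F K x y - mulF F K y x) y y = 0 := by
  obtain ⟨a, u1, u2, u3, v1, v2, v3⟩ := x
  obtain ⟨b, w1, w2, w3, z1, z2, z3⟩ := y
  simp only [assoc, mulF_apply, mulc, Prod.mk_sub_mk, Prod.mk_eq_zero]
  refine ⟨?_, ?_, ?_, ?_, ?_, ?_, ?_⟩ <;> ring

/-- A two-sided ideal with a nonzero scalar is everything. -/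
theorem top_of_scalar {I : Submodule F (K7 K)}
    (hI : ∀ x ∈ I, ∀ y, mulF F K x y ∈ I ∧ mulF F K y x ∈ I) {c : K} (hc : c ≠ 0)
    (h : ((c, 0, 0, 0, 0, 0, 0) : K7 K) ∈ I) : I = ⊤ := by
  rw [eq_top_iff]
  rintro ⟨b, w1, w2, w3, z1, z2, z3⟩ -
  have := (hI _ h (c⁻¹ * b, c⁻¹ * w1, c⁻¹ * w2, c⁻¹ * w3, c⁻¹ * z1, c⁻¹ * z2, c⁻¹ * z3)).1
  convert this using 1
  simp only [mulF_apply, mulc, Prod.mk.injEq]
  refine ⟨?_, ?_, ?_, ?_, ?_, ?_, ?_⟩ <;> field_simp <;> ring

theorem simple (h2 : (2 : F) ≠ 0) (I : Submodule F (K7 K))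
    (hI : ∀ x ∈ I, ∀ y, mulF F K x y ∈ I ∧ mulF F K y x ∈ I) : I = ⊥ ∨ I = ⊤ := by
  have hK : (2 : K) ≠ 0 := by
    intro h
    apply h2
    apply (algebraMap F K).injective
    rw [map_ofNat, map_zero, h]
  by_cases hb : I = ⊥
  · exact Or.inl hb
  right
  obtain ⟨⟨a, u1, u2, u3, v1, v2, v3⟩, hx, hx0⟩ := Submodule.exists_mem_ne_zero_of_ne_bot hb
  have key : ∀ y z : K7 K, mulF F K (mulF F K (a, u1, u2, u3, v1, v2, v3) y -
      mulF F K y (a, u1, u2, u3, v1, v2, v3)) z ∈ I := fun y z =>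
    (hI _ (I.sub_mem (hI _ hx y).1 (hI _ hx y).2) z).1
  by_cases hv1 : v1 = 0
  · by_cases hv2 : v2 = 0
    · by_cases hv3 : v3 = 0
      · by_cases hu1 : u1 = 0
        · by_cases hu2 : u2 = 0
          · by_cases hu3 : u3 = 0
            · subst hv1 hv2 hv3 hu1 hu2 hu3
              have ha : a ≠ 0 := by
                rintro rfl
                exact hx0 rfl
              exact top_of_scalar hI ha hx
            · refine top_of_scalar hI (c := 4 * u3) ?_ ?_
              · have : (4 : K) = 2 * 2 := by norm_num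
                rw [this]
                exact mul_ne_zero (mul_ne_zero hK hK) hu3
              · convert key (0, 1, 0, 0, 0, 0, 0) (0, 0, -1, 0, 0, 0, 0) using 1
                simp only [mulF_apply, mulc, Prod.mk_sub_mk, Prod.mk.injEq]
                refine ⟨?_, ?_, ?_, ?_, ?_, ?_, ?_⟩ <;> ring
          · refine top_of_scalar hI (c := 4 * u2) ?_ ?_
            · have : (4 : K) = 2 * 2 := by norm_num
              rw [this]
              exact mul_ne_zero (mul_ne_zero hK hK) hu2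
            · convert key (0, 0, 0, 1, 0, 0, 0) (0, -1, 0, 0, 0, 0, 0) using 1
              simp only [mulF_apply, mulc, Prod.mk_sub_mk, Prod.mk.injEq]
              refine ⟨?_, ?_, ?_, ?_, ?_, ?_, ?_⟩ <;> ring
        · refine top_of_scalar hI (c := 4 * u1) ?_ ?_
          · have : (4 : K) = 2 * 2 := by norm_num
            rw [this]
            exact mul_ne_zero (mul_ne_zero hK hK) hu1
          · convert key (0, 0, 1, 0, 0, 0, 0) (0, 0, 0, -1, 0, 0, 0) using 1
            simp only [mulF_apply, mulc, Prod.mk_sub_mk, Prod.mk.injEq]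
            refine ⟨?_, ?_, ?_, ?_, ?_, ?_, ?_⟩ <;> ring
      · refine top_of_scalar hI (c := 2 * v3) (mul_ne_zero hK hv3) ?_
        convert key (0, 0, 0, 0, 1, 0, 0) (0, 0, 0, 0, 0, 1, 0) using 1
        simp only [mulF_apply, mulc, Prod.mk_sub_mk, Prod.mk.injEq]
        refine ⟨?_, ?_, ?_, ?_, ?_, ?_, ?_⟩ <;> ring
    · refine top_of_scalar hI (c := 2 * v2) (mul_ne_zero hK hv2) ?_
      convert key (0, 0, 0, 0, 0, 0, 1) (0, 0, 0, 0, 1, 0, 0) using 1
      simp only [mulF_apply, mulc, Prod.mk_sub_mk, Prod.mk.injEq]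
      refine ⟨?_, ?_, ?_, ?_, ?_, ?_, ?_⟩ <;> ring
  · refine top_of_scalar hI (c := 2 * v1) (mul_ne_zero hK hv1) ?_
    convert key (0, 0, 0, 0, 0, 1, 0) (0, 0, 0, 0, 0, 0, 1) using 1
    simp only [mulF_apply, mulc, Prod.mk_sub_mk, Prod.mk.injEq]
    refine ⟨?_, ?_, ?_, ?_, ?_, ?_, ?_⟩ <;> ring

end

/-- **Result.** For every field `F` of characteristic not two there is an algebra `A` over `F`
(with multiplication `m`) which is flexible and satisfies the Jordan identity `(x², y, x) = 0`,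
satisfies `([x,y],y,y) = 0`, is simple, has infinite dimension over `F`, is not alternative and
is not commutative (so it is not a Jordan algebra). -/
theorem result (F : Type) [Field F] (h2 : (2 : F) ≠ 0) :
    ∃ (A : Type) (_ : AddCommGroup A) (_ : Module F A) (m : A →ₗ[F] A →ₗ[F] A),
      (∀ x y : A, assoc m x y x = 0) ∧
      (∀ x y : A, assoc m (m x x) y x = 0) ∧
      (∀ x y : A, assoc m (m x y - m y x) y y = 0) ∧
      (∃ x y : A, m x y ≠ 0) ∧
      (∀ I : Submodule F A, (∀ x ∈ I, ∀ y : A, m x y ∈ I ∧ m y x ∈ I) → I = ⊥ ∨ I = ⊤) ∧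
      (¬ Module.Finite F A) ∧
      (¬ ∀ x y : A, assoc m x x y = 0 ∧ assoc m y x x = 0) ∧
      (¬ ∀ x y : A, m x y = m y x) := by
  have hK : (2 : RatFunc F) ≠ 0 := by
    intro h
    apply h2
    apply (algebraMap F (RatFunc F)).injective
    rw [map_ofNat, map_zero, h]
  refine ⟨K7 (RatFunc F), inferInstance, inferInstance, mulF F (RatFunc F), flexible, jordan,
    identity, ⟨(1, 0, 0, 0, 0, 0, 0), (1, 0, 0, 0, 0, 0, 0), ?_⟩, simple h2, ?_, ?_, ?_⟩
  · intro h
    have := congrArg Prod.fst h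
    simp [mulF_apply, mulc] at this
  · intro h
    have : Module.Finite F (RatFunc F) :=
      Module.Finite.of_surjective (LinearMap.fst F (RatFunc F)
        (RatFunc F × RatFunc F × RatFunc F × RatFunc F × RatFunc F × RatFunc F))
        LinearMap.fst_surjective
    have h1 := Algebra.IsAlgebraic.of_finite F (RatFunc F)
    exact RatFunc.transcendental_X (h1.isAlgebraic RatFunc.X)
  · intro h
    have := (h (0, 1, 0, 0, 1, 0, 0) (0, 1, 0, 0, 0, 0, 0)).2
    have := congrArg (fun t : K7 (RatFunc F) => t.2.1) this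
    simp [assoc, mulF_apply, mulc] at this
  · intro h
    have := congrArg (fun t : K7 (RatFunc F) => t.2.2.2.2.2.2)
      (h (0, 1, 0, 0, 0, 0, 0) (0, 0, 1, 0, 0, 0, 0))
    simp [mulF_apply, mulc] at this
    have h4 : (2 : RatFunc F) * 2 = 0 := by linear_combination (-1 : RatFunc F) * this
    exact hK (mul_self_eq_zero.mp h4)

end Pool.Agent.Results.MP_52e257_al.LargeCentroid
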